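import Pool.Agent.H.MP_7112d2_mp.B

namespace Pool.Agent.Results.MP_7112d2_mp.Yes

open Pool.Agent.H.MP_7112d2_mp

theorem result : ∃ (a b c : ℕ)
    (N : Matrix (Fin a) (Fin a) ℂ →ₗ[ℂ] Matrix (Fin b) (Fin b) ℂ)
    (M : Matrix (Fin a) (Fin a) ℂ →ₗ[ℂ] Matrix (Fin c) (Fin c) ℂ) (f κ : ℝ → ℝ),
    IsChannel N ∧ IsChannel M ∧
    (OpConvex f ∧ f 1 = 0 ∧ 0 < deriv (deriv f) 1) ∧
    (OpConvex κ ∧ (∀ x, 0 < x → x * κ x = κ (1 / x)) ∧ κ 1 = 1) ∧
    ContinuousOn f (Set.Ici 0) ∧ ContinuousOn κ (Set.Ici 0) ∧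
    IsGLB (stdSet f N M) 0 ∧ ∃ η : ℝ, 0 < η ∧ IsGLB (riemSet κ N M) η := by
  refine ⟨3, 3, 2, cq sN, cq sM, fun x => (x - 1) ^ 2, fun x => 2 / (1 + x),
    cq_channel _ sN_state, cq_channel _ sM_state, ⟨opc_sq, by norm_num, ?_⟩,
    ⟨opc_kap, ?_, by norm_num⟩, by fun_prop, ?_, std_main, riem_main⟩
  · have h : deriv (fun x : ℝ => (x - 1) ^ 2) = fun x => 2 * x - 2 := by
      funext x
      have := ((hasDerivAt_id x).sub_const 1).pow 2
      rw [show (fun x : ℝ => (x - 1) ^ 2) = (fun x => id x - 1) ^ 2 from rfl, this.deriv]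
      simp
      ring
    rw [h]
    have := (((hasDerivAt_id (1 : ℝ)).const_mul 2).sub_const 2).deriv
    simp only [id] at this
    rw [this]
    norm_num
  · intro x hx
    field_simp
    ring
  · refine ContinuousOn.div continuousOn_const (by fun_prop) fun x hx => ?_
    have : (0 : ℝ) ≤ x := hx
    linarith

end Pool.Agent.Results.MP_7112d2_mp.Yes
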